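import Mathlib

open Subgroup

namespace Pool.Agent.Results.MP_462fed_al.PSp43

/-- Table of the 40 symplectic transvections acting on the 40 points of PG(3,3). -/
def tab : ℕ := 4709206447574889494229851071713851895418604297827568139305574739269984539275541881988233076905981776247578149786321688980928118264873099608384143792070834337498172091436277371140323293748481000624767524460795682587299270342328717337598501901270472582777969324930021240784309871418831872669772377409276405795765035990025755122425087748262996583322590501285001328074667426958314669943467435790316321646166465853404796389873976763438390363195873738902847610524447516455198089016371417902321397674081228073896278021285431766380081718084029892256727434398890085653974475056111664207122445112921054882449619741383637407554165271536857491632366278159643687098811234698314807327471624181449550321649331177518493010275870792475278862021318628653233391713566542689066826255287142914990197289078290452470795655065417468988970287566872984129230284839247246297064275609459663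073422513076565860034268141245592311660745845924591965197344979457627817722577677846351415609742623240407029264269447102092436188850186590153514878259105056919682173618385014746348010808127834644425580892904120295578792984543387407771611987155589698137714338711950051703233088481563272440242981386557689607977153023070783848475208378231557924306313109861297455144500158621038191921118981061710907907795024438886926294052146485627509286754107989240064220108179646500421036665639297607548178336560290430163570578997920926255911643208911858326429429219929279009478529257786396875193326668479179038675816331788878785893405340364289576491928487676517223424220796255082524188824096661201906209622649840227592872616112609991992929494407643646400070749373676055276295560943264386821840620564848062283137857517555099436308927667207402992195213693213393812325466894031801414805318714735941103566806034910712123660928708385320039005425699138697757170030356218091309483297560918278996065386032457747404479357983103169910808985136213590156789197893022493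643286563945058794402842060227456831173862766123045645073968227117202690660338853944791646675682745871347977867775959370638897549959724564408647633609060863788052425567551614188185571036187312612316111052134543573508692640412891668256272137446411007703903436553625846646492802337993602896669718314168865101743861784677942276342656406996147219222772006298301055935195930785324804334247598901726265475652254896246088751768497642077395862260803548477793278807040967185632776825118454148056035587909579745341933586715540057016226286211104666732196953641177010462894749421976541658784996070001405721159885215615624589749763021772329308594685162471064634757437978465520632879738281601784690513181619589628020208460955079948702915126031977664337668261646880494051186872520489921470558653053205203090272428915576896476604918763681658894385531677175148271648323841655364856702626897831796066035797925674064601482591704612202628817723074605728513031074711461997784887017501141398472014759075262592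

def tb (a i : Fin 40) : Fin 40 := Fin.ofNat 40 ((tab >>> (6 * (40 * a.val + i.val))) % 64)

lemma tb3 : ∀ a i, tb a (tb a (tb a i)) = i := by decide +kernel
lemma tbconj : ∀ b a i, tb b (tb a i) = tb (tb b a) (tb b i) := by decide +kernel
lemma tbinj : ∀ a b, (∀ i, tb a i = tb b i) → a = b := by decide +kernel
lemma tbtrans : ∀ a, ∃ c d, tb c (tb d a) = 0 := by decide +kernel
lemma tbperp : ∀ b, b ≠ 0 → tb b 0 = 0 → ∃ c, tb c 0 = 0 ∧ tb b (tb c b) ≠ tb c b := by
  decide +kernel
lemma tbnp : ∀ b, tb 0 b ≠ b → ∀ b', tb 0 b' ≠ b' →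
    ∃ c, tb c 0 = 0 ∧ ∃ d, tb d 0 = 0 ∧ tb c (tb d b) = b' := by decide +kernel
lemma tbsymm : ∀ a b, tb a b = b → tb b a = a := by decide +kernel
lemma tbconn : ∀ a, ∃ c, tb 0 c ≠ c ∧ tb a c ≠ c := by decide +kernel
lemma tbconn2 : ∀ a b, ∃ c, tb a c = c ∧ tb c b = b := by decide +kernel
lemma tbfix0 : ∀ b c, ∃ p, tb 0 p = p ∧ tb b p = p ∧ tb c p = p := by decide +kernel

/-- class of a point orthogonal to the point 0 -/
def cl (q : Fin 40) : ℕ := (q.val - 4) / 9

lemma cl1 : ∀ q, tb 0 q = q → q ≠ 0 → cl q < 4 ∧ (q.val = 9 * cl q + 4 ∨ q.val = 9 * cl q + 5 ∨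
    q.val = 9 * cl q + 6) := by decide +kernel
lemma cl2 : ∀ q, tb 0 q = q → q ≠ 0 → ∀ q', tb 0 q' = q' → q' ≠ 0 →
    (tb q q' = q' ↔ cl q = cl q') := by decide +kernel

def t (a : Fin 40) : Equiv.Perm (Fin 40) :=
  ⟨tb a, fun i => tb a (tb a i), fun i => tb3 a i, fun i => tb3 a i⟩

/-- The group PSp(4,3) as a permutation group. -/
def S : Subgroup (Equiv.Perm (Fin 40)) := closure (Set.range t)

def T (a : Fin 40) : S := ⟨t a, subset_closure ⟨a, rfl⟩⟩

@[simp] lemma T_apply (a i : Fin 40) : (T a : Equiv.Perm (Fin 40)) i = tb a i := rfl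

lemma T_cube (a : Fin 40) : T a ^ 3 = 1 := by
  apply Subtype.ext
  ext i
  simp [pow_succ, tb3]

lemma T_top : closure (Set.range T) = ⊤ := by
  have : Set.range T = ((↑) : S → Equiv.Perm (Fin 40)) ⁻¹' (Set.range t) := by
    ext x
    constructor
    · rintro ⟨a, rfl⟩; exact ⟨a, rfl⟩
    · rintro ⟨a, ha⟩; exact ⟨a, Subtype.ext ha⟩
  rw [this]
  exact closure_preimage_eq_top _

lemma T_conj (g : S) : ∀ a, g * T a * g⁻¹ = T ((g : Equiv.Perm (Fin 40)) a) := by
  have hg : g ∈ closure (Set.range T) := T_top ▸ mem_top g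
  induction hg using closure_induction with
  | mem x hx =>
    obtain ⟨b, rfl⟩ := hx
    intro a
    rw [mul_inv_eq_iff_eq_mul]
    apply Subtype.ext
    ext i
    simp [tbconj b a i]
  | one => simp
  | mul x y _ _ hx hy =>
    intro a
    rw [show x * y * T a * (x * y)⁻¹ = x * (y * T a * y⁻¹) * x⁻¹ by group, hy, hx]
    rfl
  | inv x _ hx =>
    intro a
    have := hx ((x⁻¹ : S) • a)
    have e : (x : Equiv.Perm (Fin 40)) ((x⁻¹ : S) • a) = a := smul_inv_smul x a
    rw [e] at this
    rw [← this]
    show _ = T ((x⁻¹ : S) • a)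
    group

lemma g_tb (g : S) (a i : Fin 40) :
    (g : Equiv.Perm (Fin 40)) (tb a i) = tb ((g : Equiv.Perm (Fin 40)) a) ((g : Equiv.Perm (Fin 40)) i) := by
  have h := T_conj g a
  rw [mul_inv_eq_iff_eq_mul] at h
  exact congrArg (fun x : S => (x : Equiv.Perm (Fin 40)) i) h

lemma g_perp (g : S) (a i : Fin 40) :
    tb ((g : Equiv.Perm (Fin 40)) a) ((g : Equiv.Perm (Fin 40)) i) = (g : Equiv.Perm (Fin 40)) i
      ↔ tb a i = i := by
  rw [← g_tb]; exact (g : Equiv.Perm (Fin 40)).injective.eq_iff

lemma trans0 (a : Fin 40) : ∃ g : S, (g : Equiv.Perm (Fin 40)) a = 0 := by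
  obtain ⟨c, d, h⟩ := tbtrans a
  exact ⟨T c * T d, h⟩

lemma tbfix (a b c : Fin 40) : ∃ p, tb a p = p ∧ tb b p = p ∧ tb c p = p := by
  obtain ⟨g, hg⟩ := trans0 a
  obtain ⟨p, h1, h2, h3⟩ := tbfix0 ((g : Equiv.Perm (Fin 40)) b) ((g : Equiv.Perm (Fin 40)) c)
  obtain ⟨p, rfl⟩ := (g : Equiv.Perm (Fin 40)).surjective p
  rw [← hg] at h1
  exact ⟨p, (g_perp g _ _).1 h1, (g_perp g _ _).1 h2, (g_perp g _ _).1 h3⟩

/-- an element of order five -/
def w : S := T 0 * T 1 * T 4 * T 14

lemma w5 : w ^ 5 = 1 := by
  apply Subtype.ext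
  ext i
  simp only [w, pow_succ, pow_zero, one_mul, coe_mul, Equiv.Perm.coe_mul, Function.comp_apply,
    T_apply, coe_one, Equiv.Perm.coe_one, id_eq]
  revert i
  decide +kernel

lemma w0 : (w : Equiv.Perm (Fin 40)) 0 ≠ 0 := by
  simp only [w, coe_mul, Equiv.Perm.coe_mul, Function.comp_apply, T_apply]
  decide +kernel

lemma T_inj {a b : Fin 40} (h : T a = T b) : a = b :=
  tbinj a b fun i => congrArg (fun x : S => (x : Equiv.Perm (Fin 40)) i) h

lemma simple : IsSimpleGroup S := by
  have : Nontrivial S := ⟨w, 1, fun h => w0 (by rw [h]; rfl)⟩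
  refine ⟨fun N hN => ?_⟩
  by_cases hbot : N = ⊥
  · exact Or.inl hbot
  right
  let π := QuotientGroup.mk' N
  let R : Fin 40 → Fin 40 → Prop := fun a b => π (T a) = π (T b)
  have hR : ∀ (g : S) a b, R a b →
      R ((g : Equiv.Perm (Fin 40)) a) ((g : Equiv.Perm (Fin 40)) b) := by
    intro g a b h
    simp only [R, ← T_conj, map_mul] at h ⊢
    rw [h]
  obtain ⟨n, hn, hn1⟩ := (N.bot_or_exists_ne_one).resolve_left hbot
  obtain ⟨a, ha⟩ : ∃ a, (n : Equiv.Perm (Fin 40)) a ≠ a := by
    by_contra h
    push Not at h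
    exact hn1 (Subtype.ext (Equiv.ext h))
  have h1 : R a ((n : Equiv.Perm (Fin 40)) a) := by
    have : π n = 1 := (QuotientGroup.eq_one_iff n).2 hn
    simp only [R, ← T_conj, map_mul, map_inv, this]
    simp
  have h2 : ∃ a b, tb a b ≠ b ∧ R a b := by
    obtain ⟨g, hg⟩ := trans0 a
    have h3 := hR g _ _ h1
    rw [hg] at h3
    set b := (g : Equiv.Perm (Fin 40)) ((n : Equiv.Perm (Fin 40)) a)
    have hb : b ≠ 0 := by
      rw [← hg]
      exact fun h => ha ((g : Equiv.Perm (Fin 40)).injective h)
    by_cases hp : tb b 0 = 0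
    · obtain ⟨c, h4, h5⟩ := tbperp b hb hp
      have h6 := hR (T c) _ _ h3
      rw [T_apply, T_apply, h4] at h6
      exact ⟨b, _, h5, h3.symm.trans h6⟩
    · exact ⟨b, 0, hp, h3.symm⟩
  have h3 : ∀ b, tb 0 b ≠ b → R 0 b := by
    obtain ⟨a, b, h4, h5⟩ := h2
    obtain ⟨g, hg⟩ := trans0 a
    have h6 := hR g _ _ h5
    have h7 := (g_perp g a b).not.2 h4
    rw [hg] at h6 h7
    intro b' hb'
    obtain ⟨c, hc, d, hd, h8⟩ := tbnp _ h7 _ hb'
    have := hR (T c) _ _ (hR (T d) _ _ h6)
    simp only [T_apply, hd, hc, h8] at this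
    exact this
  have h4 : ∀ a b, tb a b ≠ b → R a b := by
    intro a b h
    obtain ⟨g, hg⟩ := trans0 a
    have h7 := (g_perp g a b).not.2 h
    rw [hg] at h7
    have := hR g⁻¹ _ _ (h3 _ h7)
    rw [← hg] at this
    simpa using this
  have h5 : ∀ a, π (T a) = π (T 0) := by
    intro a
    obtain ⟨c, hc1, hc2⟩ := tbconn a
    exact (h4 _ _ hc2).trans (h3 _ hc1).symm
  have h6 : π (T 0) = 1 := by
    have e1 : π (T 0) ^ 3 = 1 := by rw [← map_pow, T_cube, map_one]
    have e2 : π w ^ 5 = 1 := by rw [← map_pow, w5, map_one]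
    simp only [w, map_mul, h5 1, h5 4, h5 14] at e2
    have e3 : π (T 0) ^ 21 = 1 := by
      rw [show 21 = 3 * 7 by norm_num, pow_mul, e1, one_pow]
    have e4 : π (T 0) ^ 20 = 1 := by
      rw [← e2, show 20 = 4 * 5 by norm_num, pow_mul]
      congr 1
    rw [pow_succ, e4, one_mul] at e3
    exact e3
  rw [eq_top_iff, ← T_top, closure_le]
  rintro _ ⟨a, rfl⟩
  exact (QuotientGroup.eq_one_iff _).1 ((h5 a).trans h6)

lemma fix0 (g : S) (h5 : g ^ 5 = 1) (h0 : (g : Equiv.Perm (Fin 40)) 0 = 0) (q : Fin 40)
    (hq : tb 0 q = q) : (g : Equiv.Perm (Fin 40)) q = q := by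
  by_contra hne
  set f := (g : Equiv.Perm (Fin 40)) with hf
  have hf5 : ∀ i, f (f (f (f (f i)))) = i := by
    intro i
    have := congrArg (fun x : S => (x : Equiv.Perm (Fin 40)) i) h5
    simpa [pow_succ] using this
  have hq0 : q ≠ 0 := by rintro rfl; exact hne h0
  have step : ∀ x, (tb 0 x = x ∧ x ≠ 0) → (tb 0 (f x) = f x ∧ f x ≠ 0) := by
    intro x hx
    refine ⟨?_, fun h => hx.2 (f.injective (h.trans h0.symm))⟩
    have := (g_perp g 0 x).2 hx.1
    rwa [← hf, h0] at this
  have p0 := And.intro hq hq0
  have p1 := step _ p0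
  have p2 := step _ p1
  have p3 := step _ p2
  have p4 := step _ p3
  have hc : ∀ x y, (tb 0 x = x ∧ x ≠ 0) → (tb 0 y = y ∧ y ≠ 0) →
      (cl (f x) = cl (f y) ↔ cl x = cl y) := by
    intro x y hx hy
    rw [← cl2 _ hx.1 hx.2 _ hy.1 hy.2, ← cl2 _ (step _ hx).1 (step _ hx).2 _ (step _ hy).1
      (step _ hy).2]
    exact g_perp g x y
  have a1 := hc _ _ p0 p1
  have a2 := hc _ _ p1 p2
  have a3 := hc _ _ p2 p3
  have a4 := hc _ _ p3 p4
  have b1 := hc _ _ p0 p2
  have b2 := hc _ _ p1 p3
  have b3 := hc _ _ p2 p4
  have b4 := hc _ _ p3 p0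
  rw [hf5] at a4 b3
  have n2 : f (f q) ≠ q := by
    intro h
    have := hf5 q
    rw [h, h] at this
    exact hne this
  have n3 : f (f (f q)) ≠ q := by
    intro h
    have := hf5 q
    rw [h] at this
    exact n2 this
  have d01 : (f q).val ≠ q.val := fun h => hne (Fin.ext h)
  have d02 : (f (f q)).val ≠ q.val := fun h => n2 (Fin.ext h)
  have d03 : (f (f (f q))).val ≠ q.val := fun h => n3 (Fin.ext h)
  have d12 : (f (f q)).val ≠ (f q).val := fun h => hne (f.injective (Fin.ext h))
  have d13 : (f (f (f q))).val ≠ (f q).val := fun h => n2 (f.injective (Fin.ext h))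
  have d23 : (f (f (f q))).val ≠ (f (f q)).val :=
    fun h => hne (f.injective (f.injective (Fin.ext h)))
  have c0 := cl1 _ p0.1 p0.2
  have c1 := cl1 _ p1.1 p1.2
  have c2 := cl1 _ p2.1 p2.2
  have c3 := cl1 _ p3.1 p3.2
  have c4 := cl1 _ p4.1 p4.2
  generalize cl (f (f (f (f q)))) = k4 at *
  generalize cl (f (f (f q))) = k3 at *
  generalize cl (f (f q)) = k2 at *
  generalize cl (f q) = k1 at *
  generalize cl q = k0 at *
  omega

lemma fixp (g : S) (h5 : g ^ 5 = 1) (p : Fin 40) (h0 : (g : Equiv.Perm (Fin 40)) p = p)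
    (q : Fin 40) (hq : tb p q = q) : (g : Equiv.Perm (Fin 40)) q = q := by
  obtain ⟨h, hh⟩ := trans0 p
  have := fix0 (h * g * h⁻¹) (by rw [conj_pow, h5]; simp) (by
    rw [← hh]; simp [h0]) ((h : Equiv.Perm (Fin 40)) q) (by
    rw [← hh]; exact (g_perp h p q).2 hq)
  simpa using this

lemma no5 (a b c : Fin 40) (K : Subgroup S) (hK : K ≤ closure {T a, T b, T c}) :
    ¬ 5 ∣ Nat.card K := by
  intro h
  have : Fact (Nat.Prime 5) := ⟨by norm_num⟩
  obtain ⟨g, hg⟩ := exists_prime_orderOf_dvd_card' 5 h
  obtain ⟨p, h1, h2, h3⟩ := tbfix a b c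
  have hle : closure {T a, T b, T c} ≤ MulAction.stabilizer S p := by
    rw [closure_le]
    rintro x (rfl | rfl | rfl)
    exacts [h1, h2, h3]
  have hp : ((g : S) : Equiv.Perm (Fin 40)) p = p := hle (hK g.2)
  have h5 : (g : S) ^ 5 = 1 := by
    rw [← hg, ← coe_pow, pow_orderOf_eq_one, coe_one]
  have : g = 1 := by
    apply Subtype.ext
    apply Subtype.ext
    ext q
    obtain ⟨c, hc1, hc2⟩ := tbconn2 p q
    rw [fixp _ h5 c (fixp _ h5 p hp c hc1) q hc2]
    rfl
  rw [this, orderOf_one] at hg
  norm_num at hg

lemma conj_inj : Function.Injective (MulAut.conj : S →* MulAut S) := by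
  rw [injective_iff_map_eq_one]
  intro g hg
  apply Subtype.ext
  ext a
  have h1 : g * T a * g⁻¹ = T a := DFunLike.congr_fun hg (T a)
  rw [T_conj] at h1
  rw [T_inj h1]; rfl

/-- The set of `m ≥ 1` such that some `m` conjugates of `x` in the group generated by the inner
automorphisms and `x` generate a subgroup of order divisible by `r`. -/
def betaSet (G : Type) [Group G] (r : ℕ) (x : MulAut G) : Set ℕ :=
  {m | 1 ≤ m ∧ ∃ y : Fin m → MulAut G,
    (∀ i, y i ∈ (MulAut.conj : G →* MulAut G).range ⊔ zpowers x) ∧
    r ∣ Nat.card (closure (Set.range fun i => y i * x * (y i)⁻¹))}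

theorem result : ∃ (G : Type) (_ : Group G), Finite G ∧ IsSimpleGroup G ∧
    (∃ a b : G, a * b ≠ b * a) ∧ 5 ∣ Nat.card G ∧
    ∃ x : MulAut G, orderOf x = 3 ∧ IsLeast (betaSet G 5 x) 4 := by
  have : Fact (Nat.Prime 5) := ⟨by norm_num⟩
  have : Fact (Nat.Prime 3) := ⟨by norm_num⟩
  have hw : orderOf w = 5 := orderOf_eq_prime w5 fun h => w0 (by rw [h]; rfl)
  refine ⟨S, inferInstance, inferInstance, simple, ⟨T 0, T 1, fun h => ?_⟩,
    hw ▸ orderOf_dvd_natCard w, MulAut.conj (T 0), ?_, ⟨by norm_num, ?_⟩, ?_⟩
  · have := congrArg (fun x : S => (x : Equiv.Perm (Fin 40)) 0) h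
    revert this
    simp only [coe_mul, Equiv.Perm.coe_mul, Function.comp_apply, T_apply]
    decide +kernel
  · rw [orderOf_injective _ conj_inj]
    refine orderOf_eq_prime (T_cube 0) fun h => ?_
    have := congrArg (fun x : S => (x : Equiv.Perm (Fin 40)) 1) h
    revert this
    simp only [T_apply, coe_one, Equiv.Perm.coe_one, id_eq]
    decide +kernel
  · choose g hg using trans0
    let v : Fin 4 → Fin 40 := ![0, 1, 4, 14]
    refine ⟨fun i => MulAut.conj (g (v i))⁻¹, fun i => mem_sup_left ⟨_, rfl⟩, ?_⟩
    have e : ∀ i, MulAut.conj (g (v i))⁻¹ * MulAut.conj (T 0) * (MulAut.conj (g (v i))⁻¹)⁻¹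
        = MulAut.conj (T (v i)) := by
      intro i
      rw [← map_inv, ← map_mul, ← map_mul, T_conj, ← hg (v i)]
      simp
    simp only [e]
    have hm : ∀ i, MulAut.conj (T (v i)) ∈ closure (Set.range fun i => MulAut.conj (T (v i))) :=
      fun i => subset_closure ⟨i, rfl⟩
    have hmem : MulAut.conj w ∈ closure (Set.range fun i => MulAut.conj (T (v i))) := by
      simp only [w, map_mul]
      exact mul_mem (mul_mem (mul_mem (hm 0) (hm 1)) (hm 2)) (hm 3)
    rw [← hw, ← orderOf_injective _ conj_inj]
    exact orderOf_dvd_natCard _ hmem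
  · rintro m ⟨hm, y, hy, hd⟩
    by_contra hlt
    push Not at hlt
    have hsup : (MulAut.conj : S →* MulAut S).range ⊔ zpowers (MulAut.conj (T 0))
        = (MulAut.conj : S →* MulAut S).range :=
      sup_eq_left.2 (zpowers_le.2 ⟨_, rfl⟩)
    rw [hsup] at hy
    choose g hg using hy
    let a : Fin m → Fin 40 := fun i => (g i : Equiv.Perm (Fin 40)) 0
    have e : ∀ i, y i * MulAut.conj (T 0) * (y i)⁻¹ = MulAut.conj (T (a i)) := by
      intro i
      rw [← hg i, ← map_inv, ← map_mul, ← map_mul, T_conj]
    simp only [e] at hd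
    have e2 : closure (Set.range fun i => MulAut.conj (T (a i)))
        = (closure (Set.range fun i => T (a i))).map MulAut.conj := by
      rw [MonoidHom.map_closure, ← Set.range_comp]; rfl
    rw [e2, Subgroup.card_map_of_injective conj_inj] at hd
    let i0 : Fin m := ⟨0, hm⟩
    let i1 : Fin m := if h : 1 < m then ⟨1, h⟩ else i0
    let i2 : Fin m := if h : 2 < m then ⟨2, h⟩ else i0
    refine no5 (a i0) (a i1) (a i2) _ (closure_mono ?_) hd
    rintro _ ⟨i, rfl⟩
    have : i = i0 ∨ i = i1 ∨ i = i2 := by
      obtain ⟨i, hi⟩ := i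
      have : i = 0 ∨ i = 1 ∨ i = 2 := by omega
      rcases this with rfl | rfl | rfl
      · exact Or.inl rfl
      · right; left; simp [i1, hi]
      · right; right; simp [i2, hi]
    rcases this with rfl | rfl | rfl <;> simp

end Pool.Agent.Results.MP_462fed_al.PSp43
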